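import Pool.Agent.Y316.EV.Stm

set_option autoImplicit false

/-! The spaces `K × V` form a sofic approximation (job EV-SOF, project of helper316). -/

namespace Pool.Agent.Y564.EV

open MeasureTheory Set Filter Topology Pool.Agent.Y316.PC Pool.Agent.Y316.EV
open scoped ENNReal NNReal

section

variable {Γ : Type} [Group Γ] [Countable Γ] [TopologicalSpace Γ] [DiscreteTopology Γ]
    [MeasurableSpace Γ] [DiscreteMeasurableSpace Γ]
    {V : Type} [MulAction Γ V] [Finite V] [Nonempty V] [TopologicalSpace V] [DiscreteTopology V]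
    [MeasurableSpace V] [DiscreteMeasurableSpace V]

theorem vol_prod (T : Set (KK Γ)) (v : V) :
    vol Γ V (T ×ˢ {v}) = haarK Γ T := by
  unfold vol
  rw [Measure.prod_prod, Measure.count_singleton, mul_one]

theorem prod_tsum (A : Set (KK Γ × Γ)) (hA : MeasurableSet A) :
    ((haarK Γ).prod (Measure.count : Measure Γ)) A = ∑' c, haarK Γ {k | (k, c) ∈ A} := by
  have e1 : A = ⋃ c, ({k | (k, c) ∈ A} ×ˢ {c} : Set (KK Γ × Γ)) := by
    ext g
    rw [mem_iUnion]
    constructor
    · intro hg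
      exact ⟨g.2, ⟨hg, rfl⟩⟩
    · rintro ⟨c, h1, h2⟩
      have h3 : g.2 = c := h2
      have h4 : ((g.1, c) : KK Γ × Γ) ∈ A := h1
      rw [← h3] at h4
      exact h4
  conv_lhs => rw [e1]
  rw [measure_iUnion]
  · refine tsum_congr fun c => ?_
    rw [Measure.prod_prod, Measure.count_singleton, mul_one]
  · intro c d hcd
    refine Set.disjoint_left.2 ?_
    rintro g ⟨-, h1⟩ ⟨-, h2⟩
    exact hcd ((h1 : g.2 = c).symm.trans h2)
  · intro c
    exact ((measurable_id.prodMk measurable_const :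
      Measurable fun k : KK Γ => ((k, c) : KK Γ × Γ)) hA).prod (measurableSet_singleton c)

theorem haarG_tsum (A : Set (GG Γ)) (hA : MeasurableSet A) :
    haarG Γ A = ∑' c, haarK Γ {k | ((k, c) : KK Γ × Γ) ∈ A} := prod_tsum A hA

theorem isVol : (mod Γ V).IsVol (haarG Γ) (vol Γ V) := by
  intro p U hU A hAU hA
  have hinj : InjOn (fun g : GG Γ => act g p) U := hU.2.2.1
  change vol Γ V ((fun g : GG Γ => act g p) '' A) = haarG Γ A
  let T : Γ → Set (KK Γ) := fun c => {k | ((k, c) : KK Γ × Γ) ∈ A}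
  have hT : ∀ c, MeasurableSet (T c) := fun c =>
    (measurable_id.prodMk measurable_const : Measurable fun k : KK Γ => ((k, c) : KK Γ × Γ)) hA
  let T' : Γ → Set (KK Γ) := fun c => (fun k => k + -(sh c p.1)) ⁻¹' (T c)
  have hT' : ∀ c, MeasurableSet (T' c) := fun c => (measurable_add_const _) (hT c)
  have e2 : (fun g : GG Γ => act g p) '' A = ⋃ c, (T' c ×ˢ {c • p.2} : Set (KK Γ × V)) := by
    ext q
    rw [mem_iUnion]
    constructor
    · rintro ⟨g, hg, rfl⟩
      refine ⟨g.2, ⟨?_, rfl⟩⟩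
      show ((g.1 + sh g.2 p.1 + -(sh g.2 p.1), g.2) : KK Γ × Γ) ∈ A
      rw [add_neg_cancel_right]
      exact hg
    · rintro ⟨c, h1, h2⟩
      refine ⟨((q.1 + -(sh c p.1), c) : KK Γ × Γ), h1, ?_⟩
      refine Prod.ext ?_ ?_
      · show q.1 + -(sh c p.1) + sh c p.1 = q.1
        rw [neg_add_cancel_right]
      · exact h2.symm
  rw [e2]
  rw [measure_iUnion]
  · rw [haarG_tsum A hA]
    refine tsum_congr fun c => ?_
    rw [vol_prod]
    exact measure_preimage_add_right (haarK Γ) _ _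
  · intro c d hcd
    refine Set.disjoint_left.2 ?_
    rintro q ⟨h1, h2⟩ ⟨h3, h4⟩
    have k1 : (((q.1 + -(sh c p.1), c) : KK Γ × Γ) : GG Γ) ∈ A := h1
    have k2 : (((q.1 + -(sh d p.1), d) : KK Γ × Γ) : GG Γ) ∈ A := h3
    have k3 : (fun g : GG Γ => act g p) (((q.1 + -(sh c p.1), c) : KK Γ × Γ) : GG Γ) = q := by
      refine Prod.ext ?_ ?_
      · show q.1 + -(sh c p.1) + sh c p.1 = q.1
        rw [neg_add_cancel_right]
      · exact (h2 : q.2 = c • p.2).symm
    have k4 : (fun g : GG Γ => act g p) (((q.1 + -(sh d p.1), d) : KK Γ × Γ) : GG Γ) = q := by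
      refine Prod.ext ?_ ?_
      · show q.1 + -(sh d p.1) + sh d p.1 = q.1
        rw [neg_add_cancel_right]
      · exact (h4 : q.2 = d • p.2).symm
    have k5 := hinj (hAU k1) (hAU k2) (k3.trans k4.symm)
    exact hcd (congrArg Prod.snd k5)
  · intro c
    exact (hT' c).prod (measurableSet_singleton _)

theorem vol_univ : vol Γ V univ = (Nat.card V : ℝ≥0∞) := by
  haveI : Fintype V := Fintype.ofFinite V
  unfold vol
  rw [← univ_prod_univ, Measure.prod_prod, measure_univ, one_mul, Measure.count_univ]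
  rw [Nat.card_eq_fintype_card, ENat.card_eq_coe_fintype_card]
  rfl

theorem good_of {F : Finset Γ} (h1 : (1 : Γ) ∈ F) (p : KK Γ × V)
    (hp : InjOn (fun γ : Γ => γ • p.2) (F : Set Γ)) :
    p ∈ (mod Γ V).good {g : GG Γ | g.2 ∈ F} := by
  refine ⟨⟨?_, fun _ _ => mem_univ _, ?_, ?_⟩, ?_, ?_⟩
  · exact (isOpen_discrete (F : Set Γ)).preimage (continuous_snd (X := KK Γ) (Y := Γ))
  · intro g hg h hh hgh
    have hgh' : act g p = act h p := hgh
    have e2 : g.2 • p.2 = h.2 • p.2 := congrArg Prod.snd hgh'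
    have e3 : g.2 = h.2 := hp hg hh e2
    have e1 : g.1 + sh g.2 p.1 = h.1 + sh h.2 p.1 := congrArg Prod.fst hgh'
    rw [e3] at e1
    exact GG.ext' (add_right_cancel e1) e3
  · intro W _ hWo
    have e1 : (fun g : GG Γ => act g p) '' W = ⋃ c : Γ,
        ((fun q : KK Γ × V => (((q.1 - sh c p.1, c) : KK Γ × Γ) : GG Γ)) ⁻¹' W ∩
          {q | q.2 = c • p.2}) := by
      ext q
      rw [mem_iUnion]
      constructor
      · rintro ⟨g, hg, rfl⟩
        refine ⟨g.2, ?_, rfl⟩
        show ((g.1 + sh g.2 p.1 - sh g.2 p.1, g.2) : KK Γ × Γ) ∈ W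
        rw [add_sub_cancel_right]
        exact hg
      · rintro ⟨c, h2, h3⟩
        refine ⟨_, h2, ?_⟩
        refine Prod.ext ?_ ?_
        · show q.1 - sh c p.1 + sh c p.1 = q.1
          rw [sub_add_cancel]
        · exact (h3 : q.2 = c • p.2).symm
    change IsOpen ((fun g : GG Γ => act g p) '' W)
    rw [e1]
    refine isOpen_iUnion fun c => IsOpen.inter (hWo.preimage ?_)
      ((isOpen_discrete {c • p.2}).preimage continuous_snd)
    exact (continuous_fst.sub continuous_const).prodMk continuous_const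
  · exact ⟨1, h1, act_one p⟩
  · intro g _ h _ _
    exact ⟨mem_univ _, (act_mul g h p).symm⟩

end

theorem sof : S_SOF := by
  intro Γ _ _ _ _ _ _ V _ _ _ _ _ _ _ F hF hF1 hF2 hF3
  refine ⟨fun i => isVol, fun i => ?_, fun i => ?_, ?_⟩
  · rw [vol_univ]
    exact_mod_cast Nat.card_pos.ne'
  · rw [vol_univ]
    exact ENNReal.natCast_ne_top _
  · refine ⟨fun n => {g : GG Γ | g.2 ∈ F n}, fun n => 1 / ((n : ℝ) + 1), ?_, ?_, ?_, ?_, ?_, ?_⟩
    · intro i
      have hop : IsOpen {g : GG Γ | g.2 ∈ F i} :=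
        (isOpen_discrete (F i : Set Γ)).preimage (continuous_snd (X := KK Γ) (Y := Γ))
      have hcl : IsClosed {g : GG Γ | g.2 ∈ F i} :=
        (isClosed_discrete (F i : Set Γ)).preimage (continuous_snd (X := KK Γ) (Y := Γ))
      refine ⟨hop, ?_⟩
      rw [hcl.closure_eq]
      have h2 : IsCompact ((univ : Set (KK Γ)) ×ˢ (F i : Set Γ)) :=
        isCompact_univ.prod (F i).finite_toSet.isCompact
      have h3 : (univ : Set (KK Γ)) ×ˢ (F i : Set Γ) = {g : KK Γ × Γ | g.2 ∈ F i} := by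
        ext g
        simp
      rw [h3] at h2
      exact h2
    · intro i j hij g hg
      exact hF hij hg
    · rw [eq_univ_iff_forall]
      intro g
      rw [mem_iUnion]
      obtain ⟨n, hn⟩ := hF1 g.2
      exact ⟨n, hn⟩
    · intro i j hij
      have : (i : ℝ) ≤ j := by exact_mod_cast hij
      exact one_div_le_one_div_of_le (by positivity) (by linarith)
    · exact tendsto_one_div_add_atTop_nhds_zero_nat
    · intro i
      have hsub : ((mod Γ (V i)).good {g : GG Γ | g.2 ∈ F i})ᶜ ⊆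
          (univ : Set (KK Γ)) ×ˢ {v : V i | ¬ InjOn (fun γ : Γ => γ • v) (F i)} := by
        intro p hp
        refine ⟨mem_univ _, fun hinj => hp ?_⟩
        exact good_of (hF2 i) p hinj
      refine (measure_mono hsub).trans ?_
      have h1 : vol Γ (V i) ((univ : Set (KK Γ)) ×ˢ
          {v : V i | ¬ InjOn (fun γ : Γ => γ • v) (F i)}) =
          ({v : V i | ¬ InjOn (fun γ : Γ => γ • v) (F i)}.ncard : ℝ≥0∞) := by
        unfold vol
        rw [Measure.prod_prod, measure_univ, one_mul,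
          Measure.count_apply_finite _ (Set.toFinite _), Set.ncard_eq_toFinset_card _ (Set.toFinite _)]
      rw [h1, vol_univ]
      have h2 := ENNReal.ofReal_le_ofReal (hF3 i)
      rw [ENNReal.ofReal_mul (by positivity), ENNReal.ofReal_natCast, ENNReal.ofReal_natCast] at h2
      exact h2

end Pool.Agent.Y564.EV
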